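import Pool.Agent.helper55.NM.Spec

/-!
# Row nm:LYB (second prover)
-/

set_option autoImplicit false

namespace Pool.Agent.helper58.NM

open Pool.Agent.NM Finset Nat

theorem LYB (hPMX : PMX_stmt) : LYB_stmt := by
  intro α _ _ A0 ρ hanti hne h3 h1 h2
  have hL : ∑ s ∈ A0, ((Fintype.card α).choose s.card : ℝ)⁻¹ ≤ 1 :=
    lubell_yamamoto_meshalkin_inequality_sum_inv_choose (𝕜 := ℝ) hanti
  have hρ : 0 ≤ ρ := by linarith
  have hc : 0 ≤ 3 * ρ * (1 - ρ) ^ 2 := mul_nonneg (mul_nonneg (by norm_num) hρ) (sq_nonneg _)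
  calc ∑ A ∈ A0, ρ ^ A.card * (1 - ρ) ^ (Fintype.card α - A.card)
      ≤ ∑ A ∈ A0, (3 * ρ * (1 - ρ) ^ 2) * ((Fintype.card α).choose A.card : ℝ)⁻¹ := by
        apply Finset.sum_le_sum
        intro A hA
        have hAc : A.card ≤ Fintype.card α := Finset.card_le_univ A
        have hA1 : 1 ≤ A.card := (hne A hA).card_pos
        have h := hPMX (Fintype.card α) A.card ρ h3 hA1 hAc h1 h2
        have hpos : (0 : ℝ) < ((Fintype.card α).choose A.card : ℝ) := by
          exact_mod_cast Nat.choose_pos hAc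
        rw [← div_eq_mul_inv, le_div_iff₀ hpos, mul_comm]
        exact h
    _ = (3 * ρ * (1 - ρ) ^ 2) * ∑ A ∈ A0, ((Fintype.card α).choose A.card : ℝ)⁻¹ := by
        rw [Finset.mul_sum]
    _ ≤ (3 * ρ * (1 - ρ) ^ 2) * 1 := mul_le_mul_of_nonneg_left hL hc
    _ = 3 * ρ * (1 - ρ) ^ 2 := mul_one _

end Pool.Agent.helper58.NM
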